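import Pool.Agent.H77.PUC.StmtsE

/-! # Module ACT: an unramified extension of `K(C_{s₀})` does not contain `K(C_s)` -/

universe u

namespace PUC

open Polynomial

theorem sAct (hDER : SDer.{u}) (hDEX : SDex.{u}) (hDPR : SDpr.{u}) (hICA : SIca.{u})
    (hRFA : SRfa.{u}) (hTRP : STrp.{u}) (hEVN : SEvn.{u}) (hPID : SPid.{u}) : SAct.{u} := by
  intro K F L _ _ _ _ _ _ _ _ _ _ g s0 s x y hg hs0 hC hU hs ξ υ heq
  by_contra hne
  have htr : Transcendental K ξ := by
    intro halg
    apply hne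
    have hint : IsIntegral K ξ := halg.isIntegral
    have hirr := minpoly.irreducible hint
    have hdeg := IsAlgClosed.degree_eq_one_of_irreducible K hirr
    obtain ⟨c, hc⟩ := minpoly.mem_range_of_degree_eq_one K ξ hdeg
    exact ⟨c, hc.symm⟩
  have hξ0 : ξ ≠ 0 := by
    rintro rfl
    exact hne ⟨0, (map_zero _).symm⟩
  obtain ⟨D, hD⟩ := hDER K s hs
  have hx : Transcendental K (algebraMap F L x) := by
    rw [transcendental_algebraMap_iff (algebraMap F L).injective]
    exact hC.trans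
  obtain ⟨hFx, hfin⟩ := hICA K F g s0 x y hC
  have hfx := hfin L (algebraMap F L x) hx
  have hax : Algebra.IsAlgebraic (IntermediateField.adjoin K {algebraMap F L x}) L :=
    Algebra.IsAlgebraic.of_finite _ _
  obtain ⟨D', hD', hDx⟩ := hDEX K L (algebraMap F L x) D hx hax
  have hpres := hDPR K F L g s0 x y hg hs0 hC hU D D' hD' hDx
  have hfξ := hfin L ξ htr
  obtain ⟨alg, tow, hz, -, hfd, -⟩ := hRFA K L ξ htr
  have hfd' := hfd hfξ
  obtain ⟨hEv1, hEv2⟩ := hEVN K L g s ξ υ hg hξ0 heq D D' hD' hpres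
  obtain ⟨hP1, hP2⟩ := hPID K g s hg hs
  obtain ⟨τ, hτ, hτ1, hτ2⟩ := hTRP K L (D' ξ) (by
    intro P hP
    rw [hz] at hP
    exact hpres P ξ hP)
  have hN : (Module.finrank (RatFunc K) L : K) ≠ 0 := by
    have : 0 < Module.finrank (RatFunc K) L := Module.finrank_pos
    exact_mod_cast this.ne'
  apply hP2
  refine ⟨C ((Module.finrank (RatFunc K) L : K)⁻¹) * τ, ?_, ?_⟩
  · refine le_trans (natDegree_C_mul_le _ _) (hτ2 ?_)
    intro P hP
    rw [hz] at hP ⊢
    exact hEv2 P hP
  · intro e he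
    have hτe := hτ1 e (D e) (by
      intro P hP hv
      rw [hz] at hP hv
      rw [← hv] at he ⊢
      exact hEv1 P hP he (hP1 _ he))
    rw [eval_mul, eval_C, hτe, inv_mul_cancel_left₀ hN]
    have h1 : D (1 + 4 * s * e + 4 * e ^ (2 * g + 1)) = 0 := by rw [he, map_zero]
    have h4 : D (4 : K) = 0 := by
      have := D.map_natCast 4
      exact_mod_cast this
    have h2 : D (1 + 4 * s * e + 4 * e ^ (2 * g + 1)) =
        4 * (s * D e + e * D s) + 4 * ((2 * g + 1 : ℕ) • (e ^ (2 * g) • D e)) := by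
      rw [map_add, map_add, D.map_one_eq_zero, mul_assoc, D.leibniz, D.leibniz, D.leibniz,
        D.leibniz_pow, h4]
      simp only [smul_eq_mul, Nat.add_sub_cancel]
      ring
    rw [h2, hD] at h1
    rw [← h1]
    simp only [nsmul_eq_mul, smul_eq_mul]
    push_cast
    ring

end PUC
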