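import Pool.Agent.H77.PUC.StmtsE

/-! # Module CRD: values of the coordinates of the curve at a place -/

universe u

namespace PUC

theorem sCrd : SCrd.{u} := by
  intro K E _ _ _ g s x y hx heq Q
  have H1 : x ∈ Q.ring → y ∈ Q.ring := by
    intro hxQ
    by_contra hy
    have hy0 : y ≠ 0 := by rintro rfl; exact hy Q.ring.zero_mem
    have hyi : y⁻¹ ∈ Q.ring := Q.inv_mem_of_not_mem hy
    apply hy
    have h1 : x ^ (2 * g + 1) + algebraMap K E s * x ∈ Q.ring :=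
      Q.ring.add_mem _ _ (Q.pow_mem hxQ _) (Q.ring.mul_mem _ _ (Q.alg_mem s) hxQ)
    have h2 : y = (x ^ (2 * g + 1) + algebraMap K E s * x) * y⁻¹ - 1 := by
      rw [← heq]; field_simp; ring
    rw [h2]
    exact Q.ring.sub_mem (Q.ring.mul_mem _ _ h1 hyi) Q.ring.one_mem
  have hw : (y / x ^ (g + 1)) ^ 2 + x⁻¹ ^ (g + 1) * (y / x ^ (g + 1)) =
      x⁻¹ + algebraMap K E s * x⁻¹ ^ (2 * g + 1) := by
    have h1 : (y / x ^ (g + 1)) ^ 2 + x⁻¹ ^ (g + 1) * (y / x ^ (g + 1)) =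
        (y ^ 2 + y) / x ^ (2 * g + 2) := by
      rw [inv_pow, div_pow, ← pow_mul, show (g + 1) * 2 = 2 * g + 2 by ring]
      have h3 : (x ^ (g + 1))⁻¹ * (y / x ^ (g + 1)) = y / x ^ (2 * g + 2) := by
        have h4 : x ^ (2 * g + 2) = x ^ (g + 1) * x ^ (g + 1) := by ring
        rw [h4, inv_mul_eq_div, div_div]
      rw [h3, add_div]
    rw [h1, heq, add_div, inv_pow]
    have h5 : x ^ (2 * g + 2) = x ^ (2 * g + 1) * x := by ring
    have h6 : x ^ (2 * g + 1) ≠ 0 := pow_ne_zero _ hx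
    rw [h5]
    congr 1
    · rw [div_mul_cancel_left₀ h6]
    · rw [mul_div_mul_right _ _ hx, div_eq_mul_inv]
  have H2 : x⁻¹ ∈ Q.ring → y / x ^ (g + 1) ∈ Q.ring := by
    intro hu
    generalize y / x ^ (g + 1) = w at hw
    by_contra hwn
    have hw0 : w ≠ 0 := by rintro rfl; exact hwn Q.ring.zero_mem
    have hwi : w⁻¹ ∈ Q.ring := Q.inv_mem_of_not_mem hwn
    apply hwn
    have h1 : x⁻¹ + algebraMap K E s * x⁻¹ ^ (2 * g + 1) ∈ Q.ring :=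
      Q.ring.add_mem _ _ hu (Q.ring.mul_mem _ _ (Q.alg_mem s) (Q.pow_mem hu _))
    have h2 : w = (x⁻¹ + algebraMap K E s * x⁻¹ ^ (2 * g + 1)) * w⁻¹ - x⁻¹ ^ (g + 1) := by
      rw [← hw]; field_simp; ring
    rw [h2]
    exact Q.ring.sub_mem (Q.ring.mul_mem _ _ h1 hwi) (Q.pow_mem hu _)
  refine ⟨fun hxQ => ⟨H1 hxQ, ?_⟩, fun hu => ⟨H2 hu, ?_⟩, fun hxQ hu => ?_, fun hg hxQ hyQ => ?_⟩
  · have hyQ := H1 hxQ
    have h := congrArg Q.val heq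
    rw [Q.val_add (Q.pow_mem hyQ _) hyQ, Q.val_pow hyQ,
      Q.val_add (Q.pow_mem hxQ _) (Q.ring.mul_mem _ _ (Q.alg_mem s) hxQ), Q.val_pow hxQ,
      Q.val_mul (Q.alg_mem s) hxQ, Q.val_algebraMap] at h
    exact h
  · have hwQ := H2 hu
    have h := congrArg Q.val hw
    rw [Q.val_add (Q.pow_mem hwQ _) (Q.ring.mul_mem _ _ (Q.pow_mem hu _) hwQ), Q.val_pow hwQ,
      Q.val_mul (Q.pow_mem hu _) hwQ, Q.val_pow hu,
      Q.val_add hu (Q.ring.mul_mem _ _ (Q.alg_mem s) (Q.pow_mem hu _)),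
      Q.val_mul (Q.alg_mem s) (Q.pow_mem hu _), Q.val_algebraMap, Q.val_pow hu] at h
    exact h
  · have h1 : Q.val x * Q.val x⁻¹ = 1 := by
      rw [← Q.val_mul hxQ hu, mul_inv_cancel₀ hx, Q.val_one]
    have h0 : Q.val x ≠ 0 := left_ne_zero_of_mul_eq_one h1
    have h2 : Q.val x⁻¹ = (Q.val x)⁻¹ := Q.val_inv hxQ h0
    refine ⟨h0, h2, ?_⟩
    rw [div_eq_mul_inv, ← inv_pow, Q.val_mul (H1 hxQ) (Q.pow_mem hu _), Q.val_pow hu, h2,
      inv_pow, ← div_eq_mul_inv]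
  · have hu : x⁻¹ ∈ Q.ring := Q.inv_mem_of_not_mem hxQ
    have hu0 : Q.val x⁻¹ = 0 := Q.val_inv_of_not_mem hxQ
    -- `1 + s u^(2g) = (y^2 + y) u^(2g+1)`
    have h1 : 1 + algebraMap K E s * x⁻¹ ^ (2 * g) = (y ^ 2 + y) * x⁻¹ ^ (2 * g + 1) := by
      rw [heq, add_mul, ← mul_pow, mul_inv_cancel₀ hx, one_pow, pow_succ]
      congr 1
      field_simp
    have h2 := congrArg Q.val h1
    have hy2 : y ^ 2 + y ∈ Q.ring := Q.ring.add_mem _ _ (Q.pow_mem hyQ _) hyQ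
    rw [Q.val_add Q.ring.one_mem (Q.ring.mul_mem _ _ (Q.alg_mem s) (Q.pow_mem hu _)), Q.val_one,
      Q.val_mul (Q.alg_mem s) (Q.pow_mem hu _), Q.val_pow hu,
      Q.val_mul hy2 (Q.pow_mem hu _), Q.val_pow hu, hu0, zero_pow (by omega),
      zero_pow (by omega)] at h2
    simp at h2

end PUC
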