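import Pool.Agent.H77.PUC.StmtsB
import Pool.Agent.H12.PUC.GNE

/-! # Module LOW: lower bound near a zero; coefficient estimates for polynomials -/

universe u

namespace PUC

open Polynomial Filter Topology Metric

/-- finite sums in an ultrametric field -/
theorem low_sum {K : Type u} [NormedField K] [IsUltrametricDist K] {ι : Type*} (s : Finset ι)
    (f : ι → K) (B : ℝ) (hB : 0 ≤ B) (h : ∀ i ∈ s, ‖f i‖ ≤ B) : ‖∑ i ∈ s, f i‖ ≤ B := by
  classical
  induction s using Finset.induction_on with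
  | empty => simpa using hB
  | insert a s ha ih =>
    rw [Finset.sum_insert ha]
    exact le_trans (IsUltrametricDist.norm_add_le_max _ _)
      (max_le (h a (Finset.mem_insert_self _ _)) (ih fun i hi => h i (Finset.mem_insert_of_mem hi)))

theorem low_sub {K : Type u} [NormedField K] [IsUltrametricDist K] (a b : K) :
    ‖a - b‖ ≤ max ‖a‖ ‖b‖ := by
  have := IsUltrametricDist.norm_add_le_max a (-b)
  rwa [norm_neg, ← sub_eq_add_neg] at this

/-- coefficients of a product of linear factors -/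
theorem low_prod {K : Type u} [NormedField K] [IsUltrametricDist K] (a : K) (ρ : ℝ)
    (hρ : 0 ≤ ρ) (R : Multiset K) (h : ∀ r ∈ R, ρ ≤ ‖a - r‖ ∧ ‖r‖ ≤ ‖a - r‖) (i : ℕ) :
    ‖((R.map fun r => X - C r).prod).coeff i‖ * ρ ^ i ≤ ‖(R.map fun r => a - r).prod‖ := by
  induction R using Multiset.induction_on generalizing i with
  | empty =>
    rcases i with _ | i
    · simp
    · simp [coeff_one]
  | cons r R ih =>
    have ih' := ih (fun s hs => h s (Multiset.mem_cons_of_mem hs))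
    obtain ⟨h1, h2⟩ := h r (Multiset.mem_cons_self _ _)
    rw [Multiset.map_cons, Multiset.prod_cons, Multiset.map_cons, Multiset.prod_cons, norm_mul]
    set P := (R.map fun r => X - C r).prod
    set N := ‖(R.map fun r => a - r).prod‖
    have hmul : ∀ j, ‖r * P.coeff j‖ * ρ ^ j ≤ ‖a - r‖ * N := by
      intro j
      rw [norm_mul, mul_assoc]
      exact mul_le_mul h2 (ih' j) (mul_nonneg (norm_nonneg _) (pow_nonneg hρ _)) (norm_nonneg _)
    rcases i with _ | i
    · have : ((X - C r) * P).coeff 0 = - (r * P.coeff 0) := by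
        rw [sub_mul, coeff_sub, coeff_C_mul, mul_coeff_zero, coeff_X_zero, zero_mul, zero_sub]
      rw [this, norm_neg]
      exact hmul 0
    · have : ((X - C r) * P).coeff (i + 1) = P.coeff i - r * P.coeff (i + 1) := by
        rw [sub_mul, coeff_sub, coeff_C_mul, coeff_X_mul]
      rw [this]
      refine le_trans (mul_le_mul_of_nonneg_right (low_sub _ _) (pow_nonneg hρ _)) ?_
      rw [max_mul_of_nonneg _ _ (pow_nonneg hρ _)]
      apply max_le
      · rw [pow_succ, ← mul_assoc, mul_comm]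
        exact mul_le_mul h1 (ih' i) (mul_nonneg (norm_nonneg _) (pow_nonneg hρ _)) (norm_nonneg _)
      · exact hmul (i + 1)

/-- coefficient estimate: the sup norm on a disc bounds the coefficients -/
theorem low_coeff {K : Type u} [NontriviallyNormedField K] [IsUltrametricDist K] [IsAlgClosed K]
    (Q : K[X]) (ρ : K) (hρ : ρ ≠ 0) (η : ℝ) (h : ∀ a, ‖a‖ ≤ ‖ρ‖ → ‖Q.eval a‖ ≤ η) (i : ℕ) :
    ‖Q.coeff i‖ * ‖ρ‖ ^ i ≤ η := by
  classical
  obtain ⟨a, ha1, ha2⟩ := sGne K 0 ρ Q.roots.toFinset hρ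
  rw [sub_zero] at ha1
  by_cases hQ : Q = 0
  · subst hQ
    have := h a ha1
    simpa using this
  have hfac := (IsAlgClosed.splits Q).eq_prod_roots
  have hr : ∀ r ∈ Q.roots, ‖ρ‖ ≤ ‖a - r‖ ∧ ‖r‖ ≤ ‖a - r‖ := by
    intro r hr
    have h1 := ha2 r (by simpa using hr)
    refine ⟨h1, ?_⟩
    by_cases h2 : ‖r‖ ≤ ‖ρ‖
    · exact h2.trans h1
    · push Not at h2
      have h3 : ‖a‖ < ‖r‖ := lt_of_le_of_lt ha1 h2
      by_contra h4
      push Not at h4
      have h5 := low_sub a (a - r)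
      rw [sub_sub_cancel] at h5
      exact absurd h5 (not_le.2 (max_lt h3 h4))
  have h2 := low_prod a ‖ρ‖ (norm_nonneg _) Q.roots hr i
  have h3 := h a ha1
  have h4 : ‖Q.eval a‖ = ‖Q.leadingCoeff‖ * ‖(Q.roots.map fun r => a - r).prod‖ := by
    rw [(IsAlgClosed.splits Q).eval_eq_prod_roots a, norm_mul]
  have h5 : ‖Q.coeff i‖ = ‖Q.leadingCoeff‖ * ‖((Q.roots.map fun r => X - C r).prod).coeff i‖ := by
    conv_lhs => rw [hfac]
    rw [coeff_C_mul, norm_mul]
  rw [h5, mul_assoc]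
  refine le_trans (mul_le_mul_of_nonneg_left h2 (norm_nonneg _)) ?_
  rw [← h4]
  exact h3

/-- values of a polynomial from its coefficients -/
theorem low_eval {K : Type u} [NormedField K] [IsUltrametricDist K] (Q : K[X]) (a : K) (m : ℕ)
    (B : ℝ) (hB : 0 ≤ B) (h : ∀ i, i ≠ m → ‖Q.coeff i * a ^ i‖ ≤ B) :
    ‖Q.eval a - Q.coeff m * a ^ m‖ ≤ B := by
  classical
  have hlt : Q.natDegree < max (Q.natDegree + 1) (m + 1) :=
    lt_of_lt_of_le (Nat.lt_succ_self _) (le_max_left _ _)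
  rw [eval_eq_sum_range' hlt]
  have hm : m ∈ Finset.range (max (Q.natDegree + 1) (m + 1)) :=
    Finset.mem_range.2 (lt_of_lt_of_le (Nat.lt_succ_self _) (le_max_right _ _))
  rw [← Finset.sum_erase_add _ _ hm, add_sub_cancel_right]
  exact low_sum _ _ B hB fun i hi => h i (Finset.ne_of_mem_erase hi)

/-- the lower bound, centred at `0` -/
theorem low_zero {K : Type u} [NontriviallyNormedField K] [IsUltrametricDist K] [IsAlgClosed K]
    (H : K → K) (R : ℝ) (hR : 0 < R) (hH : ∀ ε : ℝ, 0 < ε → ∃ Q : K[X], ∀ a, ‖a‖ ≤ R →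
      ‖H a - Q.eval a‖ ≤ ε) (a1 : K) (ha1 : ‖a1‖ ≤ R) (hne : H a1 ≠ 0) :
    ∃ (m : ℕ) (κ r : ℝ), 0 < κ ∧ 0 < r ∧ ∀ a, ‖a‖ ≤ r → κ * ‖a‖ ^ m ≤ ‖H a‖ := by
  classical
  -- the radius
  obtain ⟨ρ, hρ0, hρR, hρ1⟩ : ∃ ρ : K, ρ ≠ 0 ∧ ‖ρ‖ ≤ R ∧ ‖a1‖ ≤ ‖ρ‖ := by
    by_cases h0 : a1 = 0
    · obtain ⟨ρ, h1, h2⟩ := NormedField.exists_norm_lt K hR
      exact ⟨ρ, norm_pos_iff.1 h1, h2.le, by rw [h0, norm_zero]; exact norm_nonneg _⟩
    · exact ⟨a1, h0, ha1, le_rfl⟩
  have hρ : 0 < ‖ρ‖ := norm_pos_iff.2 hρ0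
  set e : ℕ → ℝ := fun n => 1 / ((n : ℝ) + 1) with he
  have he0 : ∀ n, 0 < e n := fun n => by rw [he]; positivity
  have hanti : ∀ n n', n ≤ n' → e n' ≤ e n := by
    intro n n' h
    apply one_div_le_one_div_of_le (by positivity)
    have : (n : ℝ) ≤ n' := by exact_mod_cast h
    linarith
  have hlim : ∀ δ : ℝ, 0 < δ → ∃ n, e n < δ := fun δ hδ => exists_nat_one_div_lt hδ
  choose Q hQ using fun n => hH (e n) (he0 n)
  set w : ℕ → ℕ → ℝ := fun i n => ‖(Q n).coeff i‖ * ‖ρ‖ ^ i with hw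
  have hcau : ∀ n n' i, ‖(Q n).coeff i - (Q n').coeff i‖ * ‖ρ‖ ^ i ≤ max (e n) (e n') := by
    intro n n' i
    rw [← coeff_sub]
    refine low_coeff _ ρ hρ0 _ (fun a ha => ?_) i
    rw [eval_sub]
    have h1 : (Q n).eval a - (Q n').eval a = (H a - (Q n').eval a) - (H a - (Q n).eval a) := by ring
    rw [h1]
    refine le_trans (low_sub _ _) ?_
    rw [max_comm]
    exact max_le_max (hQ n a (ha.trans hρR)) (hQ n' a (ha.trans hρR))
  have hcomp : ∀ n n' i, w i n ≤ max (w i n') (max (e n) (e n')) := by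
    intro n n' i
    have h1 : ‖(Q n).coeff i‖ ≤ max ‖(Q n').coeff i‖ ‖(Q n).coeff i - (Q n').coeff i‖ := by
      have := IsUltrametricDist.norm_add_le_max ((Q n').coeff i)
        ((Q n).coeff i - (Q n').coeff i)
      rwa [add_sub_cancel] at this
    have h2 : w i n ≤ max ‖(Q n').coeff i‖ ‖(Q n).coeff i - (Q n').coeff i‖ * ‖ρ‖ ^ i :=
      mul_le_mul_of_nonneg_right h1 (pow_nonneg hρ.le _)
    rw [max_mul_of_nonneg _ _ (pow_nonneg hρ.le _)] at h2
    exact h2.trans (max_le_max le_rfl (hcau n n' i))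
  -- a nonvanishing coefficient
  have hex : ∃ i, ∃ n, e n < w i n := by
    by_contra hcon
    push Not at hcon
    obtain ⟨n, hn⟩ := hlim ‖H a1‖ (norm_pos_iff.2 hne)
    have h1 : ‖(Q n).eval a1‖ ≤ e n := by
      rw [eval_eq_sum_range]
      refine low_sum _ _ _ (he0 n).le fun i _ => ?_
      rw [norm_mul, norm_pow]
      refine le_trans ?_ (hcon i n)
      exact mul_le_mul_of_nonneg_left (pow_le_pow_left₀ (norm_nonneg _) hρ1 i) (norm_nonneg _)
    have h2 : ‖H a1‖ ≤ e n := by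
      have h3 : H a1 = (H a1 - (Q n).eval a1) + (Q n).eval a1 := by ring
      rw [h3]
      exact (IsUltrametricDist.norm_add_le_max _ _).trans (max_le (hQ n a1 ha1) h1)
    linarith
  set m := Nat.find hex with hm
  obtain ⟨n0, hn0⟩ := Nat.find_spec hex
  have hmin : ∀ i, i < m → ∀ n, w i n ≤ e n := by
    intro i hi n
    have := Nat.find_min hex hi
    push Not at this
    exact this n
  set c := w m n0 with hc
  have hc0 : 0 < c := lt_trans (he0 n0) hn0
  have hstab : ∀ n, n0 ≤ n → c ≤ w m n := by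
    intro n hn
    have h1 := hcomp n0 n m
    rw [max_eq_left (hanti n0 n hn)] at h1
    rcases le_max_iff.1 h1 with h2 | h2
    · exact h2
    · exact absurd h2 (not_le.2 hn0)
  -- uniform bound
  obtain ⟨M, hM0, hM⟩ : ∃ M : ℝ, 0 < M ∧ ∀ i n, w i n ≤ M := by
    refine ⟨1 + ∑ i ∈ (Q 0).support, w i 0, ?_, ?_⟩
    · have : 0 ≤ ∑ i ∈ (Q 0).support, w i 0 :=
        Finset.sum_nonneg fun i _ => mul_nonneg (norm_nonneg _) (pow_nonneg hρ.le _)
      linarith
    · intro i n
      have hs : w i 0 ≤ ∑ i ∈ (Q 0).support, w i 0 := by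
        by_cases hi : i ∈ (Q 0).support
        · exact Finset.single_le_sum (f := fun i => w i 0)
            (fun i _ => mul_nonneg (norm_nonneg _) (pow_nonneg hρ.le _)) hi
        · have h1 : w i 0 = 0 := by
            have h2 : (Q 0).coeff i = 0 := by simpa using hi
            show ‖(Q 0).coeff i‖ * ‖ρ‖ ^ i = 0
            rw [h2, norm_zero, zero_mul]
          rw [h1]
          exact Finset.sum_nonneg fun i _ => mul_nonneg (norm_nonneg _) (pow_nonneg hρ.le _)
      have h0 : 0 ≤ ∑ i ∈ (Q 0).support, w i 0 :=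
        Finset.sum_nonneg fun i _ => mul_nonneg (norm_nonneg _) (pow_nonneg hρ.le _)
      have h1 := hcomp n 0 i
      have h2 : max (e n) (e 0) ≤ 1 := by
        have h3 : e 0 = 1 := by rw [he]; simp
        have h4 := hanti 0 n (Nat.zero_le _)
        rw [h3] at h4 ⊢
        exact max_le h4 le_rfl
      refine h1.trans (max_le ?_ (h2.trans ?_))
      · linarith
      · linarith
  refine ⟨m, c / ‖ρ‖ ^ m, ‖ρ‖ * min 1 (c / (2 * M)), by positivity, by positivity, ?_⟩
  intro a ha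
  set t := ‖a‖ / ‖ρ‖ with ht
  have ht0 : 0 ≤ t := by positivity
  have hat : ‖a‖ = t * ‖ρ‖ := by rw [ht]; field_simp
  have ht1 : t ≤ min 1 (c / (2 * M)) := by
    rw [ht, div_le_iff₀ hρ, mul_comm]; exact ha
  have ht2 : t ≤ 1 := ht1.trans (min_le_left _ _)
  have ht3 : M * t ≤ c / 2 := by
    have := ht1.trans (min_le_right _ _)
    calc M * t ≤ M * (c / (2 * M)) := mul_le_mul_of_nonneg_left this hM0.le
      _ = c / 2 := by field_simp
  have hgoal : c / ‖ρ‖ ^ m * ‖a‖ ^ m = c * t ^ m := by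
    rw [ht, div_pow]; ring
  rw [hgoal]
  rcases eq_or_lt_of_le (pow_nonneg ht0 m) with hz | hpos
  · rw [← hz, mul_zero]; exact norm_nonneg _
  by_contra hlt
  push Not at hlt
  have hct : 0 < c * t ^ m := mul_pos hc0 hpos
  obtain ⟨n1, hn1⟩ := hlim _ hct
  set n := max n0 n1 with hn
  have hen : e n < c * t ^ m := lt_of_le_of_lt (hanti n1 n (le_max_right _ _)) hn1
  have haR : ‖a‖ ≤ R := by
    rw [hat]
    exact le_trans (mul_le_of_le_one_left hρ.le ht2) hρR
  have hterm : ∀ i, ‖(Q n).coeff i * a ^ i‖ = w i n * t ^ i := by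
    intro i
    rw [norm_mul, norm_pow, hat, mul_pow]
    show _ = ‖(Q n).coeff i‖ * ‖ρ‖ ^ i * t ^ i
    ring
  set B := max (e n) (c / 2 * t ^ m) with hB
  have hBlt : B < c * t ^ m := by
    apply max_lt hen
    have : c / 2 * t ^ m = (c * t ^ m) / 2 := by ring
    rw [this]; linarith
  have hB0 : 0 ≤ B := le_trans (he0 n).le (le_max_left _ _)
  have h1 := low_eval (Q n) a m B hB0 (by
    intro i hi
    rw [hterm i]
    rcases lt_or_gt_of_ne hi with h | h
    · refine le_trans ?_ (le_max_left _ _)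
      calc w i n * t ^ i ≤ e n * 1 :=
            mul_le_mul (hmin i h n) (pow_le_one₀ ht0 ht2) (pow_nonneg ht0 _) (he0 n).le
        _ = e n := mul_one _
    · refine le_trans ?_ (le_max_right _ _)
      calc w i n * t ^ i ≤ M * t ^ (m + 1) :=
            mul_le_mul (hM i n) (pow_le_pow_of_le_one ht0 ht2 h) (pow_nonneg ht0 _) hM0.le
        _ = (M * t) * t ^ m := by ring
        _ ≤ c / 2 * t ^ m := mul_le_mul_of_nonneg_right ht3 hpos.le)
  have h2 : (Q n).coeff m * a ^ m = H a - (H a - (Q n).eval a) -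
      ((Q n).eval a - (Q n).coeff m * a ^ m) := by ring
  have h3 : ‖(Q n).coeff m * a ^ m‖ < c * t ^ m := by
    rw [h2]
    refine lt_of_le_of_lt (low_sub _ _) (max_lt (lt_of_le_of_lt (low_sub _ _) (max_lt hlt ?_)) ?_)
    · exact lt_of_le_of_lt (hQ n a haR) hen
    · exact lt_of_le_of_lt h1 hBlt
  rw [hterm m] at h3
  have h4 : c * t ^ m ≤ w m n * t ^ m :=
    mul_le_mul_of_nonneg_right (hstab n (le_max_left _ _)) hpos.le
  linarith

theorem sLow : SLow.{u} := by
  intro K _ _ _ _ H a0 R hR hH hne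
  obtain ⟨a1, ha1, h1⟩ := hne
  obtain ⟨m, κ, r, hκ, hr, h⟩ := low_zero (fun a => H (a + a0)) R hR (by
    intro ε hε
    obtain ⟨Q, hQ⟩ := hH ε hε
    refine ⟨Q.comp (X + C a0), fun a ha => ?_⟩
    rw [eval_comp, eval_add, eval_X, eval_C]
    exact hQ _ (by rw [mem_closedBall, dist_eq_norm, add_sub_cancel_right]; exact ha))
    (a1 - a0) (by rw [mem_closedBall, dist_eq_norm] at ha1; exact ha1)
    (by simpa using h1)
  refine ⟨m, κ, r, hκ, hr, fun a ha => ?_⟩
  rw [mem_closedBall, dist_eq_norm] at ha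
  have := h (a - a0) ha
  simpa using this

end PUC
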